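import Pool.Agent.H923R2.FP.Stubs

/-! 2-norm calculus -/

set_option autoImplicit false

namespace Pool.Agent.H923R2.FP.T_T1

open Pool.Agent.H923R2.FP
open scoped ComplexConjugate

variable {A : Type} [CStarAlgebra A]

/-- the pre-inner product of a tracial state -/
@[reducible] noncomputable def core (τ : A →ₗ[ℂ] ℂ) (h : FTS τ) : PreInnerProductSpace.Core ℂ A where
  inner x y := τ (star x * y)
  conj_inner_symm x y := by
    change conj (τ (star y * x)) = τ (star x * y)
    rw [← h.str]; simp
  re_inner_nonneg x := h.nonneg x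
  add_left x y z := by
    change τ (star (x + y) * z) = τ (star x * z) + τ (star y * z)
    rw [star_add, add_mul, map_add]
  smul_left x y r := by
    change τ (star (r • x) * y) = conj r * τ (star x * y)
    rw [star_smul, smul_mul_assoc, map_smul]; rfl

lemma cs (τ : A →ₗ[ℂ] ℂ) (h : FTS τ) (x y : A) :
    ‖τ (star x * y)‖ * ‖τ (star y * x)‖ ≤ (τ (star x * x)).re * (τ (star y * y)).re := by
  let _ := core τ h
  exact InnerProductSpace.Core.inner_mul_inner_self_le (𝕜 := ℂ) x y

lemma swap (τ : A →ₗ[ℂ] ℂ) (h : FTS τ) (x y : A) : ‖τ (star y * x)‖ = ‖τ (star x * y)‖ := by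
  have : τ (star y * x) = conj (τ (star x * y)) := by rw [← h.str]; simp
  rw [this, RCLike.norm_conj]

theorem t_T1 : S_T1 := by
  intro A _ τ h
  have h0 : ∀ x, 0 ≤ nt τ x := fun x => Real.sqrt_nonneg _
  have hsq : ∀ x, nt τ x ^ 2 = (τ (star x * x)).re := fun x => Real.sq_sqrt (h.nonneg x)
  have hCS : ∀ x y, ‖τ (star x * y)‖ ≤ nt τ x * nt τ y := by
    intro x y
    have h1 := cs τ h x y
    rw [swap τ h x y, ← hsq, ← hsq] at h1
    have h2 : ‖τ (star x * y)‖ ^ 2 ≤ (nt τ x * nt τ y) ^ 2 := by
      rw [mul_pow, pow_two ‖τ (star x * y)‖]; exact h1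
    exact le_of_sq_le_sq h2 (mul_nonneg (h0 x) (h0 y))
  have him : ∀ x, (τ (star x * x)).im = 0 := by
    intro x
    have h1 : conj (τ (star x * x)) = τ (star x * x) := by rw [← h.str]; simp
    exact Complex.conj_eq_iff_im.1 h1
  have hself : ∀ x, (nt τ x : ℂ) ^ 2 = τ (star x * x) := by
    intro x
    apply Complex.ext
    · rw [← hsq, ← Complex.ofReal_pow, Complex.ofReal_re]
    · rw [him, ← Complex.ofReal_pow, Complex.ofReal_im]
  refine ⟨hCS, ?_, ?_, ?_, ?_, ?_, hself, h0⟩
  · intro x y
    have e : (τ (star (x + y) * (x + y))).re = (τ (star x * x)).re + (τ (star x * y)).re +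
        ((τ (star y * x)).re + (τ (star y * y)).re) := by
      rw [star_add, add_mul, mul_add, mul_add, map_add, map_add, map_add]
      simp only [Complex.add_re]
    have h1 := (Complex.re_le_norm (τ (star x * y))).trans (hCS x y)
    have h2 := (Complex.re_le_norm (τ (star y * x))).trans (hCS y x)
    have h3 : nt τ (x + y) ^ 2 ≤ (nt τ x + nt τ y) ^ 2 := by
      rw [hsq, e, ← hsq, ← hsq]
      nlinarith
    exact le_of_sq_le_sq h3 (add_nonneg (h0 x) (h0 y))
  · intro x y
    let _ : PartialOrder A := CStarAlgebra.spectralOrder A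
    let _ : StarOrderedRing A := CStarAlgebra.spectralOrderedRing A
    have h1 : star x * x ≤ algebraMap ℝ A (‖x‖ ^ 2) := CStarAlgebra.star_mul_le_algebraMap_norm_sq
    obtain ⟨z, hz⟩ := CStarAlgebra.nonneg_iff_eq_star_mul_self.1 (sub_nonneg.2 h1)
    have h2 := h.nonneg (z * y)
    have e : star (z * y) * (z * y) =
        ((‖x‖ ^ 2 : ℝ) : ℂ) • (star y * y) - star (x * y) * (x * y) := by
      have e1 : star (z * y) * (z * y) = star y * (star z * z) * y := by
        rw [star_mul]; simp only [mul_assoc]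
      rw [e1, ← hz, mul_sub, sub_mul, star_mul, Algebra.algebraMap_eq_smul_one]
      congr 1
      · rw [mul_smul_comm, smul_mul_assoc, mul_one]
        exact (Complex.coe_smul (‖x‖ ^ 2) (star y * y)).symm
      · simp only [mul_assoc]
    rw [e, map_sub, map_smul, Complex.sub_re, smul_eq_mul, Complex.re_ofReal_mul, ← hsq, ← hsq] at h2
    have h3 : nt τ (x * y) ^ 2 ≤ (‖x‖ * nt τ y) ^ 2 := by rw [mul_pow]; linarith
    exact le_of_sq_le_sq h3 (mul_nonneg (norm_nonneg x) (h0 y))
  · intro x
    unfold nt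
    rw [star_star, h.comm]
  · intro c x
    unfold nt
    have e : τ (star (c • x) * (c • x)) = ((‖c‖ ^ 2 : ℝ) : ℂ) * τ (star x * x) := by
      rw [star_smul, smul_mul_smul_comm, map_smul, smul_eq_mul]
      congr 1
      have := Complex.conj_mul' c
      push_cast
      exact this
    rw [e, Complex.re_ofReal_mul, Real.sqrt_mul (by positivity), Real.sqrt_sq (norm_nonneg c)]
  · intro x
    have h1 : nt τ x ^ 2 ≤ ‖x‖ ^ 2 := by
      rw [hsq]
      refine (Complex.re_le_norm _).trans ((h.bound _).trans (le_of_eq ?_))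
      rw [CStarRing.norm_star_mul_self, pow_two]
    exact le_of_sq_le_sq h1 (norm_nonneg x)

end Pool.Agent.H923R2.FP.T_T1
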